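import Pool.Agent.H86.BlC

namespace Pool.Agent.Results.MP_23899c_an.NotL1Sum
open Pool.Agent.H86.Bl

universe u v w

/-- Dedekind complete. -/
def DedC (P : Type) [BL P] : Prop := ∀ S : Set P, S.Nonempty → BddAbove S → ∃ s, IsLUB S s

/-- Dedekind `σ`-complete. -/
def DedSC (P : Type) [BL P] : Prop :=
  ∀ S : Set P, S.Countable → S.Nonempty → BddAbove S → ∃ s, IsLUB S s

/-- `x ↦ (Φ i x)_i` is an isometric lattice isomorphism of `P` onto the `ℓ_1`-sum of the `E i`. -/
def IsL1Iso {P : Type} [BL P] {ι : Type v} {E : ι → Type w} [∀ i, BL (E i)]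
    (Φ : ∀ i, P →L[ℝ] E i) : Prop :=
  (∀ i, LatHom (Φ i)) ∧ (∀ x, HasSum (fun i => ‖Φ i x‖) ‖x‖) ∧
    ∀ y : ∀ i, E i, (Summable fun i => ‖y i‖) → ∃ x, ∀ i, Φ i x = y i

/-- `P` is isometrically lattice isomorphic to an `ℓ_1`-sum of finite-dimensional Banach
lattices. -/
def IsL1SumFD (P : Type) [BL P] : Prop :=
  ∃ (ι : Type v) (E : ι → Type w) (_ : ∀ i, BL (E i)), (∀ i, FiniteDimensional ℝ (E i)) ∧
    ∃ Φ : ∀ i, P →L[ℝ] E i, IsL1Iso Φ

theorem not_sum : ¬ IsL1SumFD.{v, w} W := by
  classical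
  rintro ⟨ι, E, _, hf, Φ, h1, h2, h3⟩
  have inj : ∀ x, (∀ i, Φ i x = 0) → x = 0 := fun x h => norm_eq_zero.1 ((h2 x).unique (by
    simpa only [h, norm_zero] using hasSum_zero))
  have pos : ∀ x, (∀ i, 0 ≤ Φ i x) → 0 ≤ x := fun x h => by
    have := inj (|x| - x) fun i => by rw [map_sub, h1 i, abs_of_nonneg (h i), sub_self]
    rw [← sub_eq_zero.1 this]; exact abs_nonneg _
  have pos' : ∀ i x, 0 ≤ x → 0 ≤ Φ i x := fun i x h => by
    rw [← abs_of_nonneg h, h1 i]; exact abs_nonneg _
  have one : ∀ n, ∃ i, (∀ j, j ≠ i → Φ j (ee n) = 0) ∧ ‖Φ i (ee n)‖ = 1 := fun n => by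
    obtain ⟨i, hi⟩ : ∃ i, Φ i (ee n) ≠ 0 := by
      by_contra h
      push Not at h
      have := ee_norm n
      rw [inj _ h, norm_zero] at this
      exact zero_ne_one this
    obtain ⟨x, hx⟩ := h3 (Pi.single i (Φ i (ee n))) (summable_of_ne_finset_zero (s := {i})
      fun j hj => by rw [Pi.single_eq_of_ne (by simpa using hj), norm_zero])
    have x0 : 0 ≤ x := pos x fun j => by
      rw [hx]
      by_cases h : j = i
      · subst h; rw [Pi.single_eq_same]; exact pos' _ _ (ee_nonneg n)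
      · rw [Pi.single_eq_of_ne h]
    have x1 : 0 ≤ ee n - x := pos _ fun j => by
      rw [map_sub, hx]
      by_cases h : j = i
      · subst h; rw [Pi.single_eq_same, sub_self]
      · rw [Pi.single_eq_of_ne h, sub_zero]; exact pos' _ _ (ee_nonneg n)
    have e : x = x.1 n • ee n := Subtype.ext (funext fun d => by
      change x.1 d = x.1 n * (ee n).1 d
      have a0 : (0 : ℝ) ≤ x.1 d := x0 d
      have a1 : (0 : ℝ) ≤ (ee n).1 d - x.1 d := x1 d
      rw [ee_val] at a1 ⊢
      split_ifs at a1 ⊢ with h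
      · rw [h, mul_one]
      · linarith)
    have e1 : x.1 n = 1 := by
      have := hx i
      rw [Pi.single_eq_same, e, map_smul] at this
      have h' : (x.1 n - 1) • Φ i (ee n) = 0 := by rw [sub_smul, this, one_smul, sub_self]
      exact sub_eq_zero.1 ((smul_eq_zero.1 h').resolve_right hi)
    rw [e1, one_smul] at e
    have z : ∀ j, j ≠ i → Φ j (ee n) = 0 := fun j hj => by rw [← e, hx, Pi.single_eq_of_ne hj]
    exact ⟨i, z, ((hasSum_single i fun j hj => by rw [z j hj, norm_zero]).unique (h2 _)).trans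
      (ee_norm n)⟩
  choose i hi hi' using one
  have same : ∀ n, i (n + 1) = i n := fun n => by
    by_contra h
    have := sum_le_hasSum {i (n + 1), i n} (fun _ _ => norm_nonneg _) (h2 (ee n + ee (n + 1)))
    rw [Finset.sum_pair h, map_add, map_add, hi n _ h, hi (n + 1) _ (Ne.symm h), zero_add, add_zero,
      hi', hi'] at this
    linarith [ee_add_norm n]
  have same0 : ∀ n, i n = i 0 := fun n => by
    induction n with
    | zero => rfl
    | succ n ih => rw [same, ih]
  have hinj : Function.Injective (Φ (i 0) : W →ₗ[ℝ] E (i 0)) := by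
    rw [injective_iff_map_eq_zero]
    refine fun x hx => inj x fun j => ?_
    by_cases h : j = i 0
    · subst h; exact hx
    · refine ((Φ j).hasSum (W_hasSum x)).unique ?_
      simpa only [map_smul, fun n => hi n j (by rw [same0]; exact h), smul_zero] using hasSum_zero
  haveI := hf (i 0)
  haveI : FiniteDimensional ℝ W := Module.Finite.of_injective _ hinj
  refine Module.Finite.not_linearIndependent_of_infinite (R := ℝ) ee (linearIndependent_iff'.2
    fun s g hg n hn => ?_)
  have := (congrArg (ev n) hg).trans (map_zero _)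
  simpa [map_sum, ev_apply, ee_val, hn] using this

theorem result : ∃ (P : Type) (_ : BL P), Proj.{u} P ∧ DedC P ∧ DedSC P ∧ ¬ IsL1SumFD.{v, w} P :=
  ⟨W, inferInstance, proj_W, dedekind, fun S _ => dedekind S, not_sum⟩

end Pool.Agent.Results.MP_23899c_an.NotL1Sum
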